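import Pool.Agent.Helper54.GS.Defs

/-!
# GS-2: the normal closure of an element of order p in SL(V)
-/

set_option autoImplicit false

namespace Pool.Agent.Helper54.GS

open Matrix Matrix.SpecialLinearGroup
open scoped LinearAlgebra.Projectivization Pointwise commutatorElement

section mat
variable {F : Type} [Field F] {ι : Type} [Fintype ι] [DecidableEq ι]

private theorem gs2_tr_mem {i j : ι} (hij : i ≠ j) (b : F) :
    Matrix.SpecialLinearGroup.transvection hij b ∈
      lineStab (Submodule.span F {(Pi.single i (1 : F) : ι → F)}) :=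
  SL2Gen.transvection_mem_lineStab hij b

private theorem gs2_ext {A B : Matrix.SpecialLinearGroup ι F}
    (h : ∀ (w : ι → F) (k : ι), (A • w) k = (B • w) k) : A = B := by
  apply Subtype.ext
  apply Matrix.ext_of_mulVec_single
  intro i
  ext k
  exact h (Pi.single i 1) k

private theorem gs2_tr_apply {i j : ι} (hij : i ≠ j) (b : F) (w : ι → F) (k : ι) :
    (Matrix.SpecialLinearGroup.transvection hij b • w) k =
      if k = i then w i + b * w j else w k := by
  have : (Matrix.SpecialLinearGroup.transvection hij b • w) =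
    (1 + Matrix.single i j b : Matrix ι ι F) *ᵥ w := rfl
  rw [this, Matrix.add_mulVec, Matrix.one_mulVec, Matrix.single_mulVec_eq]
  by_cases hk : k = i
  · subst hk; simp
  · simp [hk]

private theorem gs2_di_apply {i j : ι} (hij : i ≠ j) {a : F} (ha : a ≠ 0) (w : ι → F) (k : ι) :
    (diag2n hij a ha • w) k = if k = i then a * w k else if k = j then a⁻¹ * w k else w k := by
  rw [Matrix.SpecialLinearGroup.smul_def, diag2n_coe]
  have : (Matrix.diagonal (fun k ↦ if k = i then a else if k = j then a⁻¹ else 1) : Matrix ι ι F) • w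
    = (Matrix.diagonal (fun k ↦ if k = i then a else if k = j then a⁻¹ else 1) : Matrix ι ι F) *ᵥ w := rfl
  rw [this, Matrix.mulVec_diagonal]
  split_ifs <;> simp

private theorem gs2_di_eq {i j : ι} (hij : i ≠ j) {a : F} (ha : a ≠ 0) :
    diag2n hij a ha = Matrix.SpecialLinearGroup.transvection hij a *
      Matrix.SpecialLinearGroup.transvection hij.symm (- a⁻¹) *
      Matrix.SpecialLinearGroup.transvection hij a *
      Matrix.SpecialLinearGroup.transvection hij (-1) *
      Matrix.SpecialLinearGroup.transvection hij.symm 1 *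
      Matrix.SpecialLinearGroup.transvection hij (-1) := by
  apply gs2_ext
  intro w k
  rw [gs2_di_apply]
  simp only [mul_smul, gs2_tr_apply]
  by_cases hk : k = i
  · subst hk
    simp [hij, hij.symm]
    field_simp
    ring
  · by_cases hk2 : k = j
    · subst hk2
      simp [hij, hij.symm]
      field_simp
      ring
    · simp [hk, hk2]

private theorem gs2_comm {i j : ι} (hij : i ≠ j) {a : F} (ha : a ≠ 0) (b : F) :
    ⁅diag2n hij a ha, Matrix.SpecialLinearGroup.transvection hij b⁆ =
      Matrix.SpecialLinearGroup.transvection hij (b * (a ^ 2 - 1)) := by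
  rw [commutatorElement_def, mul_inv_eq_iff_eq_mul, mul_inv_eq_iff_eq_mul]
  apply gs2_ext
  intro w k
  simp only [mul_smul, gs2_tr_apply, gs2_di_apply]
  by_cases hk : k = i
  · subst hk
    simp [hij, hij.symm]
    field_simp
    ring
  · by_cases hk2 : k = j
    · subst hk2
      simp [hij, hij.symm]
    · simp [hk, hk2]

private theorem gs2_induct [Nontrivial ι] (H : Subgroup (Matrix.SpecialLinearGroup ι F))
    (h : ∀ (i j : ι) (hij : i ≠ j) (b : F), Matrix.SpecialLinearGroup.transvection hij b ∈ H) :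
    H = ⊤ := by
  rw [eq_top_iff]
  intro A _
  refine diagonal_transvection_induction' (fun M => M ∈ H) A ?_ h (fun A B => H.mul_mem)
  intro i j hij c hc
  rw [gs2_di_eq hij hc]
  exact H.mul_mem (H.mul_mem (H.mul_mem (H.mul_mem (H.mul_mem (h _ _ _ _) (h _ _ _ _)) (h _ _ _ _))
    (h _ _ _ _)) (h _ _ _ _)) (h _ _ _ _)

private theorem gs2_perfect [Nontrivial ι] {a : F} (ha : a ≠ 0) (hasq : a ^ 2 ≠ 1) :
    commutator (Matrix.SpecialLinearGroup ι F) = ⊤ := by
  apply gs2_induct
  intro i j hij b
  have := gs2_comm hij ha (b / (a ^ 2 - 1))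
  rw [div_mul_cancel₀ _ (sub_ne_zero_of_ne hasq)] at this
  rw [← this]
  exact Subgroup.commutator_mem_commutator (Subgroup.mem_top _) (Subgroup.mem_top _)

private noncomputable def gs2_iwa [Nontrivial ι] :
    MulAction.IwasawaStructure (Matrix.SpecialLinearGroup ι F) (ℙ F (ι → F)) where
  T := fun p => lineStab p.submodule
  is_comm := fun p => by
    rw [← Projectivization.mk_rep p, Projectivization.submodule_mk]
    exact lineStab_isMulCommutative_of_span p.rep p.rep_nonzero
  is_conj := fun g p => by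
    rw [PSL.smul_submodule, Matrix.SpecialLinearGroup.lineStab_smul]
  is_generator := by
    apply gs2_induct
    intro i j hij b
    have h0 : (Pi.single i (1 : F) : ι → F) ≠ 0 := Pi.single_ne_zero_iff.2 one_ne_zero
    refine Subgroup.mem_iSup_of_mem (Projectivization.mk F (Pi.single i (1 : F) : ι → F) h0) ?_
    rw [Projectivization.submodule_mk]
    exact gs2_tr_mem hij b

private theorem gs2_mat [Nontrivial ι] {p : ℕ} [Fact p.Prime] [CharP F p] (hp5 : 5 ≤ p)
    (τ : Matrix.SpecialLinearGroup ι F) (hτ : orderOf τ = p) :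
    Subgroup.normalClosure ({τ} : Set (Matrix.SpecialLinearGroup ι F)) = ⊤ := by
  have hp := Fact.out (p := p.Prime)
  have h2 : (2 : F) ≠ 0 := by
    have := (CharP.cast_eq_zero_iff F p 2).not.2 (fun h => by
      have := Nat.le_of_dvd (by norm_num) h; omega)
    exact_mod_cast this
  have h3 : (3 : F) ≠ 0 := by
    have := (CharP.cast_eq_zero_iff F p 3).not.2 (fun h => by
      have := Nat.le_of_dvd (by norm_num) h; omega)
    exact_mod_cast this
  have hperf : commutator (Matrix.SpecialLinearGroup ι F) = ⊤ :=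
    gs2_perfect h2 (fun h => h3 (by linear_combination h))
  rw [eq_top_iff, ← hperf]
  refine MulAction.IwasawaStructure.commutator_le gs2_iwa _ ?_
  intro hfix
  have hmem : τ ∈ (MulAction.toPermHom (Matrix.SpecialLinearGroup ι F) (ℙ F (ι → F))).ker := by
    rw [MonoidHom.mem_ker]
    ext x
    have hx : x ∈ MulAction.fixedPoints
        (Subgroup.normalClosure ({τ} : Set (Matrix.SpecialLinearGroup ι F))) (ℙ F (ι → F)) := by
      rw [hfix]; trivial
    exact hx ⟨τ, Subgroup.subset_normalClosure rfl⟩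
  rw [Projectivization.SL_mulAction_ker, Matrix.SpecialLinearGroup.mem_center_iff] at hmem
  obtain ⟨r, -, hr⟩ := hmem
  have hτp : τ ^ p = 1 := hτ ▸ pow_orderOf_eq_one τ
  have hrp : r ^ p = 1 := by
    obtain ⟨i, -⟩ := exists_pair_ne ι
    have h1 : (τ ^ p).1 i i = (1 : Matrix ι ι F) i i := by rw [hτp]; rfl
    rw [Matrix.SpecialLinearGroup.coe_pow, ← hr, ← map_pow] at h1
    simpa using h1
  have hr1 : r = 1 := by
    have h1 : (r - 1) ^ p = 0 := by rw [sub_pow_char, hrp, one_pow, sub_self]
    exact sub_eq_zero.1 (pow_eq_zero_iff hp.ne_zero |>.1 h1)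
  have hτ1 : τ = 1 := by
    apply Subtype.ext
    rw [← hr, hr1, map_one]
    rfl
  rw [hτ1, orderOf_one] at hτ
  exact hp.one_lt.ne hτ

end mat

/-- GS-2 -/
theorem normalClosure_sl {p : ℕ} [Fact p.Prime] {𝔽 : Type} [Field 𝔽] [Finite 𝔽] [CharP 𝔽 p]
    {V : Type} [AddCommGroup V] [Module 𝔽 V] [FiniteDimensional 𝔽 V]
    (hp5 : 5 ≤ p) (hV : 2 ≤ Module.finrank 𝔽 V)
    (τ : SpecialLinearGroup 𝔽 V) (hτ : orderOf τ = p) :
    Subgroup.normalClosure ({τ} : Set (SpecialLinearGroup 𝔽 V)) = ⊤ := by
  have : Nontrivial (Fin (Module.finrank 𝔽 V)) := Fin.nontrivial_iff_two_le.2 hV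
  let e := Matrix.SpecialLinearGroup.toLin_equiv (Module.finBasis 𝔽 V)
  have h1 : orderOf (e.symm τ) = p := by rw [MulEquiv.orderOf_eq, hτ]
  have h2 := gs2_mat hp5 (e.symm τ) h1
  have h3 := Subgroup.map_normalClosure {e.symm τ} e.toMonoidHom e.surjective
  rw [h2, Set.image_singleton] at h3
  have h4 : e.toMonoidHom (e.symm τ) = τ := e.apply_symm_apply τ
  rw [h4] at h3
  rw [← h3]
  exact Subgroup.map_top_of_surjective _ e.surjective

end Pool.Agent.Helper54.GS
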